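import Pool.Agent.VCS.All

/-!
# Rainbow sunflowers in nearly disjoint set systems (MP_2812e0_co): one link, one colour
-/

set_option autoImplicit false

noncomputable section

open Finset

namespace Pool.Agent.NDis

open Pool.Agent.VCS

universe u

/-- A first round of constant density and then rounds of small density. -/
theorem two_stage {X : Type u} [Fintype X] [DecidableEq X] (p : Finset X → ℝ) (q₁ q L : ℝ)
    (R ℓ n s : ℕ) (hq₁ : 0 < q₁) (hq₁' : q₁ ≤ 1) (hq0 : 0 < q) (hq1 : q ≤ 1) (hqR : 64 ≤ q * R)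
    (hs : s < 2 ^ ℓ) (hp : ∀ A, 0 ≤ p A) (hp1 : ∑ A, p A = 1) (hL : 0 ≤ L)
    (hup : ∀ T : Finset X, T.card ≤ s → up p T * (R : ℝ) ^ T.card ≤ 1)
    (hloss : ∀ A₀, 0 < p A₀ →
      ∑ A, p A * ∑ T ∈ (A ∩ A₀).powerset with s < T.card, (1 / q₁) ^ T.card ≤ L) :
    Ex (1 - (1 - q₁) * (1 - q) ^ n) (bad p) ≤ (4 : ℝ) ^ ℓ / 2 ^ n + 4 * L := by
  obtain ⟨p', h0', hs', hup', hL'⟩ := p_OR X p q₁ L s hp hq₁ hq₁' hL hloss
  have hlossW : ∀ W, 0 ≤ ∑ A, p A - ∑ T, p' W T := by
    intro W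
    have h1 := hup' W ∅
    rw [SL_up_empty, SL_up_empty] at h1
    linarith
  set c : ℝ := 1 - (1 - q) ^ n with hc
  have hc0 : 0 ≤ c := by
    have : (1 - q) ^ n ≤ 1 := pow_le_one₀ (by linarith) (by linarith)
    linarith
  have hc1 : c ≤ 1 := by
    have : 0 ≤ (1 - q) ^ n := pow_nonneg (by linarith) n
    linarith
  have hA0 : (0 : ℝ) ≤ 4 ^ ℓ / 2 ^ n := by positivity
  have hmain : ∀ W₁, Ex c (fun W₂ => bad p (W₁ ∪ W₂)) ≤
      4 ^ ℓ / 2 ^ n + 4 * (∑ A, p A - ∑ T, p' W₁ T) := by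
    intro W₁
    by_cases hf : ∑ A, p A - ∑ T, p' W₁ T ≤ 1 / 4
    · have h1 : Ex c (fun W₂ => bad p (W₁ ∪ W₂)) ≤ Ex c (bad (p' W₁)) := by
        refine Ex_mono hc0 hc1 fun W₂ => SL_bad_le fun T hT => ?_
        obtain ⟨-, A, hA, hAT⟩ := hs' W₁ T hT
        exact ⟨A, hA, hAT⟩
      have h2 := a_IT X q R hq0 hq1 hqR n ℓ (p' W₁) (h0' W₁)
        (fun A hA => lt_of_le_of_lt (hs' W₁ A hA).1 hs) (by
          have h3 : (0 : ℝ) ≤ (1 / 2 : ℝ) ^ (ℓ + 2) := by positivity
          linarith) (by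
          intro T
          by_cases hT : T.card ≤ s
          · refine le_trans ?_ (hup T hT)
            exact mul_le_mul_of_nonneg_right (hup' W₁ T) (by positivity)
          · have h4 : up (p' W₁) T = 0 := by
              unfold up
              refine sum_eq_zero fun A hA => ?_
              have h5 := card_le_card (mem_filter.1 hA).2
              by_contra hne
              have h6 : 0 < p' W₁ A := lt_of_le_of_ne (h0' W₁ A) (Ne.symm hne)
              have h7 := (hs' W₁ A h6).1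
              omega
            rw [h4, zero_mul]
            norm_num)
      have h5 := hlossW W₁
      have h6 : Ex c (bad (p' W₁)) ≤ 4 ^ ℓ / 2 ^ n := h2
      linarith
    · have h1 : Ex c (fun W₂ => bad p (W₁ ∪ W₂)) ≤ Ex c (fun _ : Finset X => (1 : ℝ)) :=
        Ex_mono hc0 hc1 fun W₂ => bad_le_one p _
      rw [Ex_const] at h1
      push Not at hf
      linarith
  have hE := p_EC X q₁ c (bad p)
  have hcc : 1 - (1 - q₁) * (1 - c) = 1 - (1 - q₁) * (1 - q) ^ n := by
    rw [hc]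
    ring
  rw [hcc] at hE
  rw [← hE]
  have h1 : Ex q₁ (fun W₁ => Ex c (fun W₂ => bad p (W₁ ∪ W₂))) ≤
      Ex q₁ (fun W₁ => 4 ^ ℓ / 2 ^ n + 4 * (∑ A, p A - ∑ T, p' W₁ T)) :=
    Ex_mono hq₁.le hq₁' hmain
  rw [Ex_add, Ex_const, Ex_smul] at h1
  linarith

/-- A link of bounded size. -/
theorem link_exists {X : Type u} [Fintype X] [DecidableEq X] (F : Finset (Finset X))
    (w R M s₀ : ℕ) (hR : 1 ≤ R) (hM : 1 ≤ M) (hw : ∀ S ∈ F, S.card = w)
    (hF : R ^ s₀ * M < F.card) :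
    ∃ (U : Finset X) (G : Finset (Finset X)), G ⊆ F ∧ (∀ S ∈ G, U ⊆ S) ∧ U.card < w ∧
      U.card ≤ s₀ ∧ M ≤ G.card ∧
      ∀ T : Finset X, U.card + T.card ≤ s₀ →
        (G.filter fun S => T ⊆ S \ U).card * R ^ T.card ≤ G.card := by
  set C := (univ : Finset (Finset X)).filter (fun U => U.card ≤ s₀ ∧
    R ^ (s₀ - U.card) * M < (F.filter fun S => U ⊆ S).card) with hC
  have h0C : ∅ ∈ C := by
    rw [hC, mem_filter]
    refine ⟨mem_univ _, by simp, ?_⟩
    rw [filter_true_of_mem fun S _ => empty_subset S]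
    simpa using hF
  obtain ⟨U, hU, hmax⟩ := exists_max_image C card ⟨∅, h0C⟩
  obtain ⟨-, hUs, hUc⟩ := mem_filter.mp hU
  set G := F.filter (fun S => U ⊆ S) with hG
  have hGM : M ≤ G.card := by
    have h1 : 1 * M ≤ R ^ (s₀ - U.card) * M := Nat.mul_le_mul_right _ (Nat.one_le_pow _ _ hR)
    omega
  have hne : G.Nonempty := card_pos.mp (by omega)
  have hUw : U.card ≤ w := by
    obtain ⟨S, hS⟩ := hne
    rw [← hw S (mem_filter.1 hS).1]
    exact card_le_card (mem_filter.1 hS).2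
  have hlt : U.card < w := by
    by_contra h
    have hUw' : U.card = w := by omega
    have h2 : G ⊆ {U} := by
      intro S hS
      obtain ⟨h3, h4⟩ := mem_filter.mp hS
      rw [mem_singleton]
      exact (eq_of_subset_of_card_le h4 (by rw [hw S h3, hUw'])).symm
    have h3 := card_le_card h2
    rw [card_singleton] at h3
    have h4 : 1 ≤ R ^ (s₀ - U.card) * M := Nat.mul_pos (Nat.pow_pos hR) hM
    omega
  refine ⟨U, G, filter_subset _ _, fun S hS => (mem_filter.mp hS).2, hlt, hUs, hGM, ?_⟩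
  intro T hT
  rcases eq_or_ne T ∅ with hT0 | hT0
  · rw [hT0, card_empty, pow_zero, mul_one]
    exact card_le_card (filter_subset _ _)
  rcases Finset.eq_empty_or_nonempty (G.filter fun S => T ⊆ S \ U) with he | ⟨S, hS⟩
  · rw [he, card_empty, zero_mul]
    exact Nat.zero_le _
  obtain ⟨hS1, hS2⟩ := mem_filter.mp hS
  have hdis : Disjoint U T := by
    rw [disjoint_left]
    intro x hx hxT
    exact (mem_sdiff.mp (hS2 hxT)).2 hx
  have hcu : (U ∪ T).card = U.card + T.card := card_union_of_disjoint hdis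
  have hTp : 0 < T.card := card_pos.mpr (nonempty_iff_ne_empty.mpr hT0)
  have hn : ¬ R ^ (s₀ - (U ∪ T).card) * M < (F.filter fun S => U ∪ T ⊆ S).card := by
    intro h
    have h5 : U ∪ T ∈ C := by
      rw [hC, mem_filter]
      exact ⟨mem_univ _, by omega, h⟩
    have h6 := hmax _ h5
    omega
  have hsub : (G.filter fun S => T ⊆ S \ U) ⊆ F.filter fun S => U ∪ T ⊆ S := by
    intro S' hS'
    obtain ⟨h7, h8⟩ := mem_filter.mp hS'
    obtain ⟨h9, h10⟩ := mem_filter.mp h7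
    exact mem_filter.mpr ⟨h9, union_subset h10 (h8.trans sdiff_subset)⟩
  calc (G.filter fun S => T ⊆ S \ U).card * R ^ T.card
      ≤ (R ^ (s₀ - (U ∪ T).card) * M) * R ^ T.card :=
        Nat.mul_le_mul_right _ ((card_le_card hsub).trans (not_lt.mp hn))
    _ = (R ^ (s₀ - (U ∪ T).card) * R ^ T.card) * M := by ring
    _ = R ^ (s₀ - U.card) * M := by
        rw [← pow_add]
        congr 2
        omega
    _ ≤ G.card := hUc.le

end Pool.Agent.NDis
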