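import Pool.Agent.NDis.Main

/-!
# Rainbow sunflowers in nearly disjoint set systems (MP_2812e0_co): numbers
-/

set_option autoImplicit false

noncomputable section

open Finset

namespace Pool.Agent.NDis

open Pool.Agent.VCS

universe u

theorem R_le (k w : ℕ) (hk : 1 ≤ k) (hw : 2 ≤ w) :
    ((64 * (2 * k - 1) * (3 * (Nat.log 2 w + 1) + 1) : ℕ) : ℝ) ≤ 1500 * k * Real.log w := by
  have hk0 : (0 : ℝ) < k := by exact_mod_cast hk
  have hlog2 : 0.6931471803 < Real.log 2 := Real.log_two_gt_d9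
  have hlog2' : (0 : ℝ) < Real.log 2 := by linarith
  have h1 : (Nat.log 2 w : ℝ) ≤ Real.log w / Real.log 2 := natlog_le (by omega)
  have h2 : Real.log 2 ≤ Real.log w := by
    apply Real.log_le_log (by norm_num)
    exact_mod_cast hw
  have h3 : (1 : ℝ) ≤ Real.log w / Real.log 2 := by
    rw [le_div_iff₀ hlog2']
    linarith
  have h4 : ((2 * k - 1 : ℕ) : ℝ) ≤ 2 * k := by
    have : 2 * k - 1 ≤ 2 * k := Nat.sub_le _ _
    exact_mod_cast this
  have h5 : (3 * ((Nat.log 2 w : ℝ) + 1) + 1) ≤ 7 * (Real.log w / Real.log 2) := by linarith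
  push_cast
  calc (64 : ℝ) * ((2 * k - 1 : ℕ) : ℝ) * (3 * ((Nat.log 2 w : ℝ) + 1) + 1) ≤
        64 * (2 * k) * (7 * (Real.log w / Real.log 2)) := by gcongr
    _ = k * (896 * (Real.log w / Real.log 2)) := by ring
    _ ≤ k * (1500 * Real.log w) := by
        apply mul_le_mul_of_nonneg_left _ hk0.le
        rw [mul_div_assoc', div_le_iff₀ hlog2']
        have : 0 ≤ Real.log w := by linarith
        nlinarith
    _ = _ := by ring

open Classical in
/-- Counting form: the base `C (log w) ^ δ` suffices when any two members share at most `δ w`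
elements. -/
theorem main (k : ℕ) (hk : 2 ≤ k) :
    ∃ C : ℝ, 1 ≤ C ∧ ∀ (δ : ℝ) (w : ℕ) (X : Type u) [Fintype X] [DecidableEq X]
      (F : Finset (Finset X)), 0 ≤ δ → δ ≤ 1 → 2 ≤ w → (∀ S ∈ F, S.card = w) →
      (∀ S ∈ F, ∀ S' ∈ F, S ≠ S' → ((S ∩ S').card : ℝ) ≤ δ * w) →
      (C * Real.log w ^ δ) ^ w ≤ F.card →
      ((univ.filter fun χ : X → Fin k => ¬ Rain F χ).card : ℝ) ≤
        (k : ℝ) ^ Fintype.card X * (C / w) := by
  have hk1 : 1 ≤ k := by omega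
  have hkR : (2 : ℝ) ≤ k := by exact_mod_cast hk
  have hk0 : (0 : ℝ) < k := by linarith
  refine ⟨3001 * k * (1 + 2 * k), by nlinarith, ?_⟩
  intro δ w X _ _ F hδ0 hδ1 hw2 hw hint hF
  have hw0 : (0 : ℝ) < w := by
    have : 0 < w := by omega
    exact_mod_cast this
  obtain ⟨ℓ, hℓ⟩ : ∃ ℓ, ℓ = Nat.log 2 w + 1 := ⟨_, rfl⟩
  obtain ⟨R, hR⟩ : ∃ R, R = 64 * (2 * k - 1) * (3 * ℓ + 1) := ⟨_, rfl⟩
  obtain ⟨M, hM⟩ : ∃ M, M = (2 * (1 + 2 * k)) ^ w := ⟨_, rfl⟩
  obtain ⟨s₀, hs₀⟩ : ∃ s₀, s₀ = ⌊δ * w⌋₊ := ⟨_, rfl⟩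
  have hδw : 0 ≤ δ * w := by positivity
  have hwℓ : w < 2 ^ ℓ := by
    rw [hℓ]
    exact Nat.lt_pow_succ_log_self (by norm_num) w
  have hs₀w : s₀ ≤ w := by
    rw [hs₀]
    apply Nat.floor_le_of_le
    nlinarith
  have hs₀' : (s₀ : ℝ) ≤ δ * w := by
    rw [hs₀]
    exact Nat.floor_le hδw
  have hint' : ∀ S ∈ F, ∀ S' ∈ F, S ≠ S' → (S ∩ S').card ≤ s₀ := by
    intro S hS S' hS' hne
    rw [hs₀]
    exact Nat.le_floor (hint S hS S' hS' hne)
  have hM1 : 1 ≤ M := by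
    rw [hM]
    exact Nat.one_le_pow _ _ (by omega)
  have hlogw : 0 < Real.log w := Real.log_pos (by exact_mod_cast (by omega : 1 < w))
  have hRle : (R : ℝ) ≤ 1500 * k * Real.log w := by
    rw [hR, hℓ]
    exact R_le k w hk1 hw2
  have hR1 : (1 : ℝ) ≤ R := by
    have : 1 ≤ R := by
      rw [hR]
      have : 1 * 1 ≤ (2 * k - 1) * (3 * ℓ + 1) := Nat.mul_le_mul (by omega) (by omega)
      have h2 : 64 * (2 * k - 1) * (3 * ℓ + 1) = 64 * ((2 * k - 1) * (3 * ℓ + 1)) := by ring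
      omega
    exact_mod_cast this
  -- the size
  have hbig : R ^ s₀ * M < F.card := by
    have h1 : (R : ℝ) ^ s₀ ≤ (1500 * k * Real.log w ^ δ) ^ w := by
      calc (R : ℝ) ^ s₀ = (R : ℝ) ^ (s₀ : ℝ) := (Real.rpow_natCast _ _).symm
        _ ≤ (R : ℝ) ^ (δ * w) := Real.rpow_le_rpow_of_exponent_le hR1 hs₀'
        _ = ((R : ℝ) ^ δ) ^ w := by rw [Real.rpow_mul (by linarith), Real.rpow_natCast]
        _ ≤ (1500 * k * Real.log w ^ δ) ^ w := by
            apply pow_le_pow_left₀ (by positivity)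
            calc (R : ℝ) ^ δ ≤ (1500 * k * Real.log w) ^ δ :=
                  Real.rpow_le_rpow (by linarith) hRle hδ0
              _ = (1500 * k) ^ δ * Real.log w ^ δ := Real.mul_rpow (by positivity) hlogw.le
              _ ≤ (1500 * k) ^ (1 : ℝ) * Real.log w ^ δ := by
                  apply mul_le_mul_of_nonneg_right _ (by positivity)
                  exact Real.rpow_le_rpow_of_exponent_le (by linarith) hδ1
              _ = _ := by rw [Real.rpow_one]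
    have h2 : (R : ℝ) ^ s₀ * M < F.card := by
      refine lt_of_lt_of_le ?_ hF
      have hlp : 0 < Real.log w ^ δ := Real.rpow_pos_of_pos hlogw δ
      calc (R : ℝ) ^ s₀ * M ≤ (1500 * k * Real.log w ^ δ) ^ w * M := by gcongr
        _ = (3000 * k * (1 + 2 * k) * Real.log w ^ δ) ^ w := by
            rw [hM]
            push_cast
            rw [← mul_pow]
            ring
        _ < (3001 * k * (1 + 2 * k) * Real.log w ^ δ) ^ w := by
            apply pow_lt_pow_left₀ _ (by positivity) (by omega)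
            have : 0 < k * (1 + 2 * (k : ℝ)) * Real.log w ^ δ := by positivity
            linarith
    exact_mod_cast h2
  have h := all_colours X F w R M s₀ ℓ (3 * ℓ) k hk hM1 hw hint' (by rw [hR]) (by omega) hbig
  refine h.trans (mul_le_mul_of_nonneg_left ?_ (by positivity))
  -- the error
  have e1 : (4 : ℝ) ^ ℓ / 2 ^ (3 * ℓ + 1) ≤ 1 / w := by
    have h1 : (w : ℝ) ≤ 2 ^ ℓ := by exact_mod_cast hwℓ.le
    rw [div_le_div_iff₀ (by positivity) hw0]
    have h4 : (4 : ℝ) ^ ℓ = 2 ^ ℓ * 2 ^ ℓ := by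
      rw [← mul_pow]
      norm_num
    calc (4 : ℝ) ^ ℓ * w ≤ (2 ^ ℓ * 2 ^ ℓ) * 2 ^ ℓ := by rw [h4]; gcongr
      _ ≤ (2 ^ ℓ * 2 ^ ℓ) * 2 ^ ℓ * 2 := by
          have : (0 : ℝ) ≤ (2 ^ ℓ * 2 ^ ℓ) * 2 ^ ℓ := by positivity
          linarith
      _ = 1 * 2 ^ (3 * ℓ + 1) := by ring
  have e2 : (1 + 2 * (k : ℝ)) ^ w / M ≤ 1 / w := by
    rw [hM, div_le_div_iff₀ (by push_cast; positivity) hw0]
    push_cast
    have h1 : (w : ℝ) ≤ 2 ^ w := by exact_mod_cast Nat.lt_two_pow_self.le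
    calc (1 + 2 * (k : ℝ)) ^ w * w ≤ (1 + 2 * (k : ℝ)) ^ w * 2 ^ w := by gcongr
      _ = 1 * (2 * (1 + 2 * (k : ℝ))) ^ w := by rw [mul_pow 2]; ring
  calc (k : ℝ) * ((4 : ℝ) ^ ℓ / 2 ^ (3 * ℓ + 1) + 4 * ((1 + 2 * (k : ℝ)) ^ w / M)) ≤
        k * (1 / w + 4 * (1 / w)) := by gcongr
    _ = (5 * k) / w := by ring
    _ ≤ _ := by
        apply div_le_div_of_nonneg_right _ hw0.le
        nlinarith

end Pool.Agent.NDis
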