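import Pool.Agent.NDis.Core

/-!
# Rainbow sunflowers in nearly disjoint set systems (MP_2812e0_co): assembly
-/

set_option autoImplicit false

noncomputable section

open Finset

namespace Pool.Agent.NDis

open Pool.Agent.VCS

universe u

/-- One colour. -/
theorem one_colour {X : Type u} [Fintype X] [DecidableEq X] (G : Finset (Finset X))
    (U : Finset X) (w R M s₀ ℓ n k : ℕ) (hk : 2 ≤ k) (hw : ∀ S ∈ G, S.card = w)
    (hU : ∀ S ∈ G, U ⊆ S) (hUs : U.card ≤ s₀) (hM : 1 ≤ M) (hMG : M ≤ G.card)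
    (hG : ∀ T : Finset X, U.card + T.card ≤ s₀ →
      (G.filter fun S => T ⊆ S \ U).card * R ^ T.card ≤ G.card)
    (hint : ∀ S ∈ G, ∀ S' ∈ G, S ≠ S' → (S ∩ S').card ≤ s₀)
    (hR : 64 * (2 * k - 1) * (n + 1) ≤ R) (hs : s₀ < 2 ^ ℓ) (i : Fin k) :
    ((univ.filter fun χ : X → Fin k => ¬ ∃ S ∈ G, ∀ x ∈ S \ U, χ x = i).card : ℝ) ≤
      (k : ℝ) ^ Fintype.card X *
        ((4 : ℝ) ^ ℓ / 2 ^ (n + 1) + 4 * ((1 + 2 * (k : ℝ)) ^ w / M)) := by
  classical
  have hne : G.Nonempty := card_pos.mp (by omega)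
  have hpos : (0 : ℝ) < G.card := by exact_mod_cast hne.card_pos
  have hkR : (2 : ℝ) ≤ k := by exact_mod_cast hk
  have hk0 : (0 : ℝ) < k := by linarith
  have hMR : (0 : ℝ) < M := by exact_mod_cast hM
  -- the law
  set p : Finset X → ℝ := fun A => ((G.filter fun S => S \ U = A).card : ℝ) / G.card with hp
  have hp0 : ∀ A, 0 ≤ p A := fun A => by positivity
  have hp1 : ∑ A, p A = 1 := by
    have h := LW_sum G U (fun _ => True)
    simp only [filter_true] at h
    rw [hp, h, div_self hpos.ne']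
  have hsupp : ∀ A, 0 < p A → ∃ S ∈ G, A = S \ U := by
    intro A hA
    by_contra hcon
    have : (G.filter fun S => S \ U = A) = ∅ := by
      rw [filter_eq_empty_iff]
      intro S hS h
      exact hcon ⟨S, hS, h.symm⟩
    simp only [hp, this, card_empty, Nat.cast_zero, zero_div, lt_irrefl] at hA
  have hup : ∀ T : Finset X, T.card ≤ s₀ - U.card → up p T * (R : ℝ) ^ T.card ≤ 1 := by
    intro T hT
    unfold up
    rw [LW_sum G U (fun A => T ⊆ A), div_mul_eq_mul_div, div_le_one hpos]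
    exact_mod_cast hG T (by omega)
  have hple : ∀ A, p A ≤ 1 / M := by
    intro A
    have h1 : (G.filter fun S => S \ U = A).card ≤ 1 := by
      rw [card_le_one]
      intro S hS S' hS'
      obtain ⟨h1, h2⟩ := mem_filter.1 hS
      obtain ⟨h3, h4⟩ := mem_filter.1 hS'
      rw [← sdiff_union_of_subset (hU S h1), ← sdiff_union_of_subset (hU S' h3), h2, h4]
    have h2 : ((G.filter fun S => S \ U = A).card : ℝ) ≤ 1 := by exact_mod_cast h1
    have h3 : (M : ℝ) ≤ G.card := by exact_mod_cast hMG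
    simp only [hp]
    rw [div_le_div_iff₀ hpos hMR]
    nlinarith
  -- the first density
  set q₁ : ℝ := 1 / ((2 * k : ℕ) : ℝ) with hq₁def
  have h2k : (((2 * k : ℕ)) : ℝ) = 2 * (k : ℝ) := by push_cast; ring
  have hq₁0 : 0 < q₁ := by rw [hq₁def, h2k]; positivity
  have hq₁1 : q₁ ≤ 1 := by
    rw [hq₁def, h2k, div_le_one (by positivity)]
    linarith
  have hq₁inv : 1 / q₁ = 2 * (k : ℝ) := by rw [hq₁def, h2k, one_div_one_div]
  -- the other densities
  obtain ⟨q, hq0, hq1, hqK, hq⟩ := ON_q (2 * k - 1) n (by omega)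
  have hK : (((2 * k - 1 : ℕ)) : ℝ) = 2 * (k : ℝ) - 1 := by
    rw [Nat.cast_sub (by omega)]
    push_cast
    ring
  have hK0 : (0 : ℝ) < ((2 * k - 1 : ℕ) : ℝ) := by rw [hK]; linarith
  have hqR : 64 ≤ q * R := by
    have h1 : (64 : ℝ) * ((2 * k - 1 : ℕ) : ℝ) * (n + 1) ≤ R := by exact_mod_cast hR
    calc (64 : ℝ) = 1 / (((2 * k - 1 : ℕ) : ℝ) * (n + 1)) *
          (64 * ((2 * k - 1 : ℕ) : ℝ) * (n + 1)) := by field_simp
      _ ≤ q * R := mul_le_mul hqK h1 (by positivity) hq0.le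
  set L : ℝ := (1 + 2 * (k : ℝ)) ^ w / M with hL
  have hL0 : 0 ≤ L := by positivity
  have hloss : ∀ A₀, 0 < p A₀ →
      ∑ A, p A * ∑ T ∈ (A ∩ A₀).powerset with s₀ - U.card < T.card, (1 / q₁) ^ T.card ≤ L := by
    intro A₀ hA₀
    obtain ⟨S₀, hS₀, rfl⟩ := hsupp A₀ hA₀
    have hterm : ∀ A, A ≠ S₀ \ U →
        p A * ∑ T ∈ (A ∩ (S₀ \ U)).powerset with s₀ - U.card < T.card, (1 / q₁) ^ T.card = 0 := by
      intro A hA
      rcases (hp0 A).eq_or_lt with h | h
      · rw [← h, zero_mul]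
      · obtain ⟨S, hS, rfl⟩ := hsupp A h
        have hSS : S ≠ S₀ := by
          rintro rfl
          exact hA rfl
        have h1 : ((S \ U) ∩ (S₀ \ U)).card ≤ s₀ - U.card := by
          have h2 : (S \ U) ∩ (S₀ \ U) = (S ∩ S₀) \ U := by
            ext x
            simp only [mem_inter, mem_sdiff]
            tauto
          rw [h2, card_sdiff_of_subset (subset_inter (hU S hS) (hU S₀ hS₀))]
          have := hint S hS S₀ hS₀ hSS
          omega
        have h3 : ((S \ U) ∩ (S₀ \ U)).powerset.filter (fun T => s₀ - U.card < T.card) = ∅ := by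
          rw [filter_eq_empty_iff]
          intro T hT
          rw [mem_powerset] at hT
          have := card_le_card hT
          omega
        rw [h3, sum_empty, mul_zero]
    rw [sum_eq_single_of_mem (S₀ \ U) (mem_univ _) fun A _ hA => hterm A hA, inter_self]
    have h1 : ∑ T ∈ (S₀ \ U).powerset with s₀ - U.card < T.card, (1 / q₁) ^ T.card ≤
        (1 + 1 / q₁) ^ (S₀ \ U).card := by
      refine (SL_inner q₁ hq₁0 _ _).trans ?_
      split_ifs
      · exact le_rfl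
      · positivity
    have h2 : (1 + 1 / q₁) ^ (S₀ \ U).card ≤ (1 + 2 * (k : ℝ)) ^ w := by
      rw [hq₁inv]
      apply pow_le_pow_right₀ (by linarith)
      rw [← hw S₀ hS₀]
      exact card_le_card sdiff_subset
    calc p (S₀ \ U) * ∑ T ∈ (S₀ \ U).powerset with s₀ - U.card < T.card, (1 / q₁) ^ T.card ≤
          1 / M * (1 + 2 * (k : ℝ)) ^ w :=
          mul_le_mul (hple _) (h1.trans h2) (sum_nonneg fun T _ => by positivity) (by positivity)
      _ = L := by rw [hL]; ring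
  have h2 := two_stage p q₁ q L R ℓ (n + 1) (s₀ - U.card) hq₁0 hq₁1 hq0 hq1 hqR (by omega) hp0 hp1
    hL0 hup hloss
  have hdens : 1 - (1 - q₁) * (1 - q) ^ (n + 1) = 1 / (k : ℝ) := by
    have h3 : (1 - q) ^ (n + 1) = 1 - 1 / (2 * (k : ℝ) - 1) := by
      rw [← hK]
      linarith
    rw [h3, hq₁def, h2k]
    have : (2 * (k : ℝ) - 1) ≠ 0 := by linarith
    field_simp
    ring
  rw [hdens] at h2
  have h3 := p_CO X k i (fun W => ¬ ∃ S ∈ G, S \ U ⊆ W)
  have h4 : (univ.filter fun χ : X → Fin k => ¬ ∃ S ∈ G, ∀ x ∈ S \ U, χ x = i) =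
      (univ.filter fun χ : X → Fin k => ¬ ∃ S ∈ G, S \ U ⊆ univ.filter fun x => χ x = i) := by
    ext χ
    simp only [mem_filter, mem_univ, true_and, subset_iff]
  rw [h4, h3]
  refine mul_le_mul_of_nonneg_left (le_trans ?_ h2) (by positivity)
  have hc0 : (0 : ℝ) ≤ 1 / k := by positivity
  have hc1 : (1 : ℝ) / k ≤ 1 := by
    rw [div_le_one hk0]
    linarith
  apply Ex_mono hc0 hc1
  intro W
  by_cases hW : ∃ S ∈ G, S \ U ⊆ W
  · rw [if_neg (not_not.2 hW)]
    exact bad_nonneg p W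
  · rw [if_pos hW]
    unfold bad
    rw [if_neg]
    rintro ⟨A, hA, hAW⟩
    obtain ⟨S, hS, rfl⟩ := hsupp A hA
    exact hW ⟨S, hS, hAW⟩

open Classical in
/-- All colours. -/
theorem all_colours (X : Type u) [Fintype X] [DecidableEq X] (F : Finset (Finset X))
    (w R M s₀ ℓ n k : ℕ) (hk : 2 ≤ k) (hM : 1 ≤ M) (hw : ∀ S ∈ F, S.card = w)
    (hint : ∀ S ∈ F, ∀ S' ∈ F, S ≠ S' → (S ∩ S').card ≤ s₀)
    (hR : 64 * (2 * k - 1) * (n + 1) ≤ R) (hs : s₀ < 2 ^ ℓ) (hF : R ^ s₀ * M < F.card) :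
    ((univ.filter fun χ : X → Fin k => ¬ Rain F χ).card : ℝ) ≤
      (k : ℝ) ^ Fintype.card X *
        (k * ((4 : ℝ) ^ ℓ / 2 ^ (n + 1) + 4 * ((1 + 2 * (k : ℝ)) ^ w / M))) := by
  have hR1 : 1 ≤ R := by
    have : 1 * 1 ≤ (2 * k - 1) * (n + 1) := Nat.mul_le_mul (by omega) (by omega)
    have h2 : 64 * (2 * k - 1) * (n + 1) = 64 * ((2 * k - 1) * (n + 1)) := by ring
    omega
  obtain ⟨U, G, hGF, hU, hUw, hUs, hMG, hG⟩ := link_exists F w R M s₀ hR1 hM hw hF
  have h1 := one_colour G U w R M s₀ ℓ n k hk (fun S hS => hw S (hGF hS)) hU hUs hM hMG hG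
    (fun S hS S' hS' => hint S (hGF hS) S' (hGF hS')) hR hs
  have hsub : (univ.filter fun χ : X → Fin k => ¬ Rain F χ) ⊆
      univ.biUnion fun i : Fin k => univ.filter fun χ : X → Fin k =>
        ¬ ∃ S ∈ G, ∀ x ∈ S \ U, χ x = i := by
    intro χ hχ
    rw [mem_filter] at hχ
    rw [mem_biUnion]
    by_contra hcon
    push Not at hcon
    refine hχ.2 (rain_of_link hGF hU hw hUw χ fun i => ?_)
    have := hcon i (mem_univ _)
    rw [mem_filter] at this
    push Not at this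
    exact this (mem_univ _)
  calc ((univ.filter fun χ : X → Fin k => ¬ Rain F χ).card : ℝ)
      ≤ ((∑ i : Fin k, (univ.filter fun χ : X → Fin k =>
        ¬ ∃ S ∈ G, ∀ x ∈ S \ U, χ x = i).card : ℕ) : ℝ) := by
        exact_mod_cast (card_le_card hsub).trans card_biUnion_le
    _ = ∑ i : Fin k, ((univ.filter fun χ : X → Fin k =>
        ¬ ∃ S ∈ G, ∀ x ∈ S \ U, χ x = i).card : ℝ) := by push_cast; rfl
    _ ≤ ∑ _i : Fin k, (k : ℝ) ^ Fintype.card X *
          ((4 : ℝ) ^ ℓ / 2 ^ (n + 1) + 4 * ((1 + 2 * (k : ℝ)) ^ w / M)) := by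
        refine sum_le_sum fun i _ => ?_
        convert h1 i
    _ = _ := by
        rw [sum_const, card_univ, Fintype.card_fin, nsmul_eq_mul]; ring

end Pool.Agent.NDis
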